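import Pool.Agent.H95.RQ.Targets1

/-!
# Cyclic-by-`p` groups are monomial
-/

set_option autoImplicit false

namespace Pool.Agent.H51.RQ

open Pool.Agent.H28.RC Pool.Agent.H95.RQ

/-- the elements which act as scalars -/
def Zs {G : Type} [Group G] {V : Type} [AddCommGroup V] [Module ℂ V]
    (ρ : Representation ℂ G V) : Subgroup G where
  carrier := {g | ∃ c : ℂ, ρ g = c • (1 : Module.End ℂ V)}
  one_mem' := ⟨1, by rw [map_one, one_smul]⟩
  mul_mem' := by
    rintro a b ⟨c, hc⟩ ⟨d, hd⟩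
    refine ⟨c * d, ?_⟩
    rw [map_mul, hc, hd, smul_mul_smul_comm, one_mul]
  inv_mem' := by
    rintro a ⟨c, hc⟩
    refine ⟨c⁻¹, ?_⟩
    have h1 : ρ a⁻¹ * ρ a = 1 := by rw [← map_mul, inv_mul_cancel, map_one]
    by_cases h0 : c = 0
    · rw [hc, h0, zero_smul, mul_zero] at h1
      have h2 : ρ a⁻¹ = ρ a⁻¹ * 1 := (mul_one _).symm
      rw [h2, ← h1, mul_zero, smul_zero]
    · rw [hc, mul_smul_comm, mul_one] at h1
      rw [← h1, smul_smul, inv_mul_cancel₀ h0, one_smul]

lemma mem_Zs {G : Type} [Group G] {V : Type} [AddCommGroup V] [Module ℂ V]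
    {ρ : Representation ℂ G V} {g : G} :
    g ∈ Zs ρ ↔ ∃ c : ℂ, ρ g = c • (1 : Module.End ℂ V) := Iff.rfl

lemma Zs_normal {G : Type} [Group G] {V : Type} [AddCommGroup V] [Module ℂ V]
    (ρ : Representation ℂ G V) : (Zs ρ).Normal := by
  refine ⟨fun a ha g => ?_⟩
  obtain ⟨c, hc⟩ := ha
  refine ⟨c, ?_⟩
  rw [map_mul, map_mul, hc, mul_smul_comm, mul_one, smul_mul_assoc, ← map_mul, mul_inv_cancel,
    map_one]

lemma indc_top {G : Type} [Group G] (lam : G →* ℂˣ) (g : G) :
    indc (⊤ : Subgroup G) (lam.comp (⊤ : Subgroup G).subtype) g = (lam g : ℂ) := by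
  classical
  unfold indc
  have : Subsingleton (G ⧸ (⊤ : Subgroup G)) := QuotientGroup.subsingleton_quotient_top
  rw [finsum_eq_single _ ((1 : G) : G ⧸ (⊤ : Subgroup G))
    (fun x hx => absurd (Subsingleton.elim x _) hx)]
  rw [dif_pos (Subgroup.mem_top _)]
  simp

lemma mon_scalar {G : Type} [Group G] {V : Type} [AddCommGroup V] [Module ℂ V]
    [FiniteDimensional ℂ V] (ρ : Representation ℂ G V) (hV : Module.finrank ℂ V ≠ 0)
    (hirr : ∀ W : Submodule ℂ V, (∀ g, ∀ x ∈ W, ρ g x ∈ W) → W = ⊥ ∨ W = ⊤)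
    (hZ : Zs ρ = ⊤) : (fun g => LinearMap.trace ℂ V (ρ g)) ∈ Mo G := by
  have hnt : Nontrivial V := Module.nontrivial_of_finrank_pos (R := ℂ) (Nat.pos_of_ne_zero hV)
  have hsc : ∀ g, ∃ c : ℂ, ρ g = c • (1 : Module.End ℂ V) := fun g => by
    have : g ∈ Zs ρ := by
      rw [hZ]
      exact Subgroup.mem_top g
    exact this
  choose c hc using hsc
  have hinj : ∀ a b : ℂ, a • (1 : Module.End ℂ V) = b • (1 : Module.End ℂ V) → a = b := by
    intro a b h
    obtain ⟨v, hv⟩ := exists_ne (0 : V)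
    have h1 := congrArg (fun f : Module.End ℂ V => f v) h
    simp only [LinearMap.smul_apply, Module.End.one_apply] at h1
    exact smul_left_injective ℂ hv h1
  have hdim : Module.finrank ℂ V = 1 := by
    obtain ⟨v, hv⟩ := exists_ne (0 : V)
    rcases hirr (Submodule.span ℂ {v}) (fun g x hx => by
      rw [hc g]
      exact Submodule.smul_mem _ _ hx) with h | h
    · exact absurd (Submodule.span_singleton_eq_bot.1 h) hv
    · have h1 := finrank_span_singleton (K := ℂ) hv
      rw [h, finrank_top] at h1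
      exact h1
  let cm : G →* ℂ :=
    { toFun := c
      map_one' := by
        apply hinj
        rw [← hc, map_one, one_smul]
      map_mul' := fun a b => by
        apply hinj
        rw [← hc, map_mul, hc a, hc b, smul_mul_smul_comm, one_mul] }
  have hfun : (fun g => LinearMap.trace ℂ V (ρ g)) =
      indc (⊤ : Subgroup G) (cm.toHomUnits.comp (⊤ : Subgroup G).subtype) := by
    funext g
    rw [indc_top, hc g, map_smul, LinearMap.trace_one, hdim]
    simp [cm]
  rw [hfun]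
  exact AddSubgroup.subset_closure ⟨_, _, rfl⟩

theorem pf_MON (h_TRA : T_TRA) (h_CLI : T_CLI) (h_RED : T_RED) (h_SSP : T_SSP) : T_MON := by
  intro p G _ _ hp hG
  induction hn : Nat.card G using Nat.strong_induction_on generalizing G with
  | _ n ihG =>
  intro V _ _ _ ρ
  induction hd : Module.finrank ℂ V using Nat.strong_induction_on generalizing V with
  | _ d ihV =>
  by_cases hV : Module.finrank ℂ V = 0
  · have hsub : Subsingleton V := Module.finrank_zero_iff.1 hV
    have h0 : (fun g => LinearMap.trace ℂ V (ρ g)) = 0 := by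
      funext g
      rw [Subsingleton.elim (ρ g) 0, map_zero]
      rfl
    rw [h0]
    exact (Mo G).zero_mem
  by_cases hirr : ∀ W : Submodule ℂ V, (∀ g, ∀ x ∈ W, ρ g x ∈ W) → W = ⊥ ∨ W = ⊤
  · by_cases hZ : Zs ρ = ⊤
    · exact mon_scalar ρ hV hirr hZ
    · obtain ⟨hsubs, hchief⟩ := h_SSP p G hp hG
      obtain ⟨A, hAn, hZA, a, ha⟩ := hchief (Zs ρ) (Zs_normal ρ) hZ
      have hrep : ∀ x ∈ A, ∃ (c : ℂ) (k : ℤ), ρ x = c • ρ (a ^ k) := by
        intro x hx
        obtain ⟨k, c, hc⟩ := ha x hx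
        refine ⟨c, k, ?_⟩
        have h1 : x = (x * a ^ (-k)) * a ^ k := by
          rw [mul_assoc, ← zpow_add, neg_add_cancel, zpow_zero, mul_one]
        rw [h1, map_mul, hc, smul_mul_assoc, one_mul]
      have hcomm : ∀ x ∈ A, ∀ y ∈ A, ρ x * ρ y = ρ y * ρ x := by
        intro x hx y hy
        obtain ⟨c, k, hc⟩ := hrep x hx
        obtain ⟨d, l, hd'⟩ := hrep y hy
        rw [hc, hd', smul_mul_smul_comm, smul_mul_smul_comm, ← map_mul, ← map_mul, ← zpow_add,
          ← zpow_add, mul_comm c d, add_comm k l]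
      obtain ⟨x, hxA, hxZ⟩ := Set.exists_of_ssubset (SetLike.coe_ssubset_coe.2 hZA)
      have hns : ∃ a ∈ A, ∀ c : ℂ, ρ a ≠ c • (1 : Module.End ℂ V) :=
        ⟨x, hxA, fun c hc => hxZ ⟨c, hc⟩⟩
      obtain ⟨H, W, τ, hH, htr⟩ := h_CLI G V ρ A hAn hirr hcomm hns
      have hcard : Nat.card H < n := by
        rw [← hn]
        refine lt_of_le_of_ne (Subgroup.card_le_card_group H) fun h => hH ?_
        exact Subgroup.eq_top_of_card_eq H h
      have hmem := ihG (Nat.card H) hcard H (hsubs H) rfl W τ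
      have hfun : (fun g => LinearMap.trace ℂ V (ρ g)) =
          indf H (fun h => LinearMap.trace ℂ W (τ h)) := funext htr
      rw [hfun]
      exact h_TRA G H _ hmem
  · push Not at hirr
    obtain ⟨W, hW, hW0, hW1⟩ := hirr
    obtain ⟨W1, W2, τ1, τ2, h1, h2, htr⟩ := h_RED G V ρ W hW hW0 hW1
    have hm1 := ihV _ (hd ▸ h1) W1 τ1 rfl
    have hm2 := ihV _ (hd ▸ h2) W2 τ2 rfl
    have hfun : (fun g => LinearMap.trace ℂ V (ρ g)) =
        (fun g => LinearMap.trace ℂ W1 (τ1 g)) + fun g => LinearMap.trace ℂ W2 (τ2 g) :=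
      funext htr
    rw [hfun]
    exact (Mo G).add_mem hm1 hm2

end Pool.Agent.H51.RQ
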